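import Pool.Agent.Lib.MP_fa98d2_nt.X.Sch

/-! The weight of one form against a monomial in its sorted Satake parameters. -/

open Finset

noncomputable section

namespace Pool.Agent.Lib.MP_fa98d2_nt.D

namespace SX

open SW

variable {N : ℕ}

/-- the partition cut off at `h` -/
def cut (L : Fin (N + 1) → ℕ) (h : ℕ) (i : Fin (N + 1)) : ℕ := if i.val < h then L i else 0

lemma cut_anti {L : Fin (N + 1) → ℕ} (hL : Antitone L) (h : ℕ) : Antitone (cut L h) :=
  fun i j hij => by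
    have := Fin.le_def.1 hij
    have := hL hij
    unfold cut
    split_ifs <;> omega

lemma cut_last (L : Fin (N + 1) → ℕ) {h : ℕ} (hh : h ≤ N) : cut L h (Fin.last N) = 0 :=
  if_neg (by simpa using hh)

lemma cut_le (L : Fin (N + 1) → ℕ) (h : ℕ) (i : Fin (N + 1)) : cut L h i ≤ L i := by
  unfold cut
  split_ifs <;> omega

lemma sum_val (N : ℕ) : ∑ i : Fin (N + 1), i.val = DD N := by
  rw [DD, Nat.choose_two_right, ← sum_range_id]
  exact Fin.sum_univ_eq_sum_range id _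

theorem form {p : ℝ} (hp : 1 < p) (α : Fin (N + 1) → ℂ) (h1 : ∏ i, α i = 1)
    (hb : ∀ i, ‖α i‖ ≤ Real.sqrt p) : ∃ (σ : Equiv.Perm (Fin (N + 1))) (h : ℕ), h ≤ N ∧
    ∀ (c : Fin (N + 1) → ℝ) (K : ℝ) (L : Fin (N + 1) → ℕ), (∀ i, 0 < c i) → Antitone c → 1 ≤ K →
      (∀ i, c i * p ^ i.val ≤ K * p ^ L i) →
      (∏ i, c i ^ (2 * max (Real.logb p ‖α i‖) 0)) * (∏ k, (1 + ‖α (σ k)‖) ^ k.val) ^ 2 ≤
        K ^ (N + 1) * 4 ^ DD N * (∏ i, ‖α (σ i)‖ ^ cut L h i) ^ 2 := by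
  have hp0 : (0 : ℝ) < p := by linarith
  have hne : ∀ i, 0 < ‖α i‖ := fun i => norm_pos_iff.2 fun h => by
    rw [prod_eq_zero (mem_univ i) h] at h1
    exact zero_ne_one h1
  obtain ⟨s, hs⟩ : ∃ s : Fin (N + 1) → ℝ, s = fun i => Real.logb p ‖α i‖ := ⟨_, rfl⟩
  have hs' : ∀ i, Real.logb p ‖α i‖ = s i := fun i => by rw [hs]
  have hs2 : ∀ i, ‖α i‖ = p ^ s i := fun i => by
    rw [← hs', Real.rpow_logb hp0 hp.ne' (hne _)]
  have s0 : ∑ i, s i = 0 := by
    simp only [← hs']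
    rw [← Real.logb_prod _ _ fun i _ => (hne i).ne', ← norm_prod, h1, norm_one, Real.logb_one]
  have s1 : ∀ i, s i ≤ 1 / 2 := fun i => by
    rw [← hs', Real.logb_le_iff_le_rpow hp (hne i), ← Real.sqrt_eq_rpow]
    exact hb i
  obtain ⟨σ, hr⟩ : ∃ σ : Equiv.Perm (Fin (N + 1)), Antitone fun i => s (σ i) :=
    ⟨Tuple.sort fun i => -s i, fun i j h =>
      neg_le_neg_iff.1 (Tuple.monotone_sort (fun i => -s i) h)⟩
  have hex : ∃ h : ℕ, ∀ i : Fin (N + 1), h ≤ i.val → s (σ i) ≤ 0 :=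
    ⟨N + 1, fun i hi => absurd i.2 (not_lt.2 hi)⟩
  have hN : ∀ i : Fin (N + 1), N ≤ i.val → s (σ i) ≤ 0 := fun i hi => by
    by_contra hc
    have h2 : 0 < ∑ k, s (σ k) := sum_pos (fun k _ => (not_le.1 hc).trans_le
      (hr (Fin.le_def.2 (by have := k.2; omega)))) univ_nonempty
    rw [Equiv.sum_comp σ s, s0] at h2
    exact lt_irrefl _ h2
  classical
  refine ⟨σ, Nat.find hex, Nat.find_min' hex hN, fun c K L hc hca hK hL => ?_⟩
  have hK0 : 0 < K := by linarith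
  have hcut : ∀ i, (cut L (Nat.find hex) i : ℝ) * s (σ i) = L i * max (s (σ i)) 0 := fun i => by
    unfold cut
    split_ifs with h
    · have h2 := Nat.find_min hex h
      push Not at h2
      obtain ⟨k, hk, hk'⟩ := h2
      rw [max_eq_left (hk'.le.trans (hr (Fin.le_def.2 hk)))]
    · rw [max_eq_right (Nat.find_spec hex i (not_lt.1 h))]
      simp
  simp only [hs']
  have e1 : ∏ i, c i ^ (2 * max (s i) 0) ≤ ∏ i, c i ^ (2 * max (s (σ i)) 0) := by
    have e : ∀ t : Fin (N + 1) → ℝ, ∏ i, c i ^ (2 * t i) =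
        Real.exp (2 * ∑ i, Real.log (c i) * t i) := fun t => by
      rw [mul_sum, Real.exp_sum]
      exact prod_congr rfl fun i _ => by rw [Real.rpow_def_of_pos (hc i)]; congr 1; ring
    rw [e fun i => max (s i) 0, e fun i => max (s (σ i)) 0]
    have hm : Monovary (fun i => Real.log (c i)) fun i => max (s (σ i)) 0 :=
      Antitone.monovary (fun i j h => Real.log_le_log (hc j) (hca h))
        fun i j h => max_le_max (hr h) le_rfl
    have := hm.sum_mul_comp_perm_le_sum_mul (σ := σ.symm)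
    simp only [Equiv.apply_symm_apply] at this
    exact Real.exp_le_exp.2 (by linarith)
  have e2 : ∀ i : Fin (N + 1), c i ^ (2 * max (s (σ i)) 0) * ((1 + ‖α (σ i)‖) ^ i.val) ^ 2 ≤
      K * 4 ^ i.val * (‖α (σ i)‖ ^ cut L (Nat.find hex) i) ^ 2 := fun i => by
    have a0 : 0 ≤ max (s (σ i)) 0 := le_max_right _ _
    have a1 : 2 * max (s (σ i)) 0 ≤ 1 := by
      have := max_le (s1 (σ i)) (by norm_num : (0 : ℝ) ≤ 1 / 2)
      linarith
    have a2 : 1 + ‖α (σ i)‖ ≤ 2 * p ^ max (s (σ i)) 0 := by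
      have b1 := Real.one_le_rpow hp.le a0
      have b2 := Real.rpow_le_rpow_of_exponent_le hp.le (le_max_left (s (σ i)) 0)
      rw [hs2]
      linarith
    have a3 : (‖α (σ i)‖ ^ cut L (Nat.find hex) i) ^ 2 = (p ^ L i) ^ (2 * max (s (σ i)) 0) := by
      rw [hs2, ← Real.rpow_natCast (p ^ s (σ i)), ← Real.rpow_mul hp0.le, mul_comm (s _), hcut,
        ← Real.rpow_natCast p, ← Real.rpow_mul hp0.le, ← Real.rpow_two, ← Real.rpow_mul hp0.le]
      congr 1
      ring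
    have a4 : ((2 * p ^ max (s (σ i)) 0) ^ i.val) ^ 2 =
        4 ^ i.val * (p ^ i.val) ^ (2 * max (s (σ i)) 0) := by
      rw [mul_pow, mul_pow, ← pow_mul, mul_comm i.val 2, pow_mul, ← Real.rpow_natCast (p ^ _),
        ← Real.rpow_mul hp0.le, ← Real.rpow_natCast p, ← Real.rpow_mul hp0.le, ← Real.rpow_two,
        ← Real.rpow_two, ← Real.rpow_mul hp0.le]
      congr 2
      · norm_num
      · ring
    rw [a3]
    generalize max (s (σ i)) 0 = t at *
    have := hc i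
    calc c i ^ (2 * t) * ((1 + ‖α (σ i)‖) ^ i.val) ^ 2
        ≤ c i ^ (2 * t) * ((2 * p ^ t) ^ i.val) ^ 2 := by gcongr
      _ = 4 ^ i.val * (c i * p ^ i.val) ^ (2 * t) := by
        rw [a4, Real.mul_rpow this.le (by positivity)]; ring
      _ ≤ 4 ^ i.val * (K * p ^ L i) ^ (2 * t) :=
        mul_le_mul_of_nonneg_left (Real.rpow_le_rpow (by positivity) (hL i) (by positivity))
          (by positivity)
      _ = 4 ^ i.val * (K ^ (2 * t) * (p ^ L i) ^ (2 * t)) := by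
        rw [Real.mul_rpow hK0.le (by positivity)]
      _ ≤ 4 ^ i.val * (K ^ (1 : ℝ) * (p ^ L i) ^ (2 * t)) := by gcongr
      _ = _ := by rw [Real.rpow_one]; ring
  refine (mul_le_mul_of_nonneg_right e1 (by positivity)).trans ?_
  rw [← prod_pow, ← prod_mul_distrib]
  refine (prod_le_prod (fun i _ => mul_nonneg (Real.rpow_nonneg (hc i).le _) (by positivity))
    fun i _ => e2 i).trans (le_of_eq ?_)
  rw [prod_mul_distrib, prod_mul_distrib, prod_const, prod_pow_eq_pow_sum, sum_val, prod_pow]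
  simp

end SX

end Pool.Agent.Lib.MP_fa98d2_nt.D
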