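import Pool.Agent.Lib.MP_fa98d2_nt.W.All
import Pool.Agent.Lib.MP_fa98d2_nt.X.Form

/-! Short-window density theorem with the optimal tuple of the diagonal range. -/

open MeasureTheory Filter Topology Matrix
open scoped ENNReal Real ContDiff ComplexConjugate InnerProductSpace

noncomputable section

namespace Pool.Agent.Lib.MP_fa98d2_nt.D

namespace SX

open SW SW.FinA SW.FinV

theorem finX (n : ℕ) (hn : 2 ≤ n) (ε : ℝ) (hε : 0 < ε) :
    ∃ C : ℝ, ∀ p : ℕ, p.Prime → ∀ T U : ℝ, 1 ≤ U → U ≤ T → ∀ (ν : Fin n → ℂ)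
      (ι : Type) [Fintype ι] (φ : ι → Mat n → ℂ) (μ : ι → Fin n → ℂ)
        (α : ι → ℕ → Fin n → ℂ), (∀ j, SphCusp (φ j) (μ j) (α j)) →
        (∀ i j, i ≠ j → ¬ ∃ c : ℂ, ∀ g : Mat n, g.det ≠ 0 → φ j g = c * φ i g) →
        (∀ j l, ‖μ j l‖ ≤ T) → (∀ j l, ‖μ j l - ν l‖ ≤ U) →
        ∑ j, ∏ i : Fin n, (U * T ^ (n - 1 - i.val) / (p : ℝ) ^ (i.val + 1)) ^
            (2 * max (Real.logb p ‖α j p i‖) 0) ≤
          C * U ^ (n - 1) * T ^ ((n : ℝ) * (n - 1) / 2 + ε) := by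
  obtain ⟨N, rfl⟩ : ∃ N, n = N + 2 := ⟨n - 2, by omega⟩
  obtain ⟨C0, hred⟩ := red near N
  set e : ℝ := min 1 (ε / (N + 2)) with he
  have he0 : 0 < e := by positivity
  have he1 : e ≤ 1 := min_le_left _ _
  have he2 : (((N + 1 : ℕ) : ℝ) + 1) * e ≤ ε := by
    have : e ≤ ε / (N + 2) := min_le_right _ _
    rw [le_div_iff₀ (by positivity)] at this
    push_cast; linarith
  obtain ⟨E, C, T0, hE, hC0, hT0, hcore⟩ := coreS (N + 1) (by omega) C0 e he0
  obtain ⟨d0, CI, hd0, hCI, hJ⟩ := injW (N + 1)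
  obtain ⟨sh, hsh, hsch⟩ := sch2 (N + 1)
  set T1 : ℝ := max T0 ((max (E / d0) (6 * E)) ^ e⁻¹) with hT1
  have hT11 : 1 ≤ T1 := hT0.trans (le_max_left _ _)
  set D : ℝ := (DD (N + 1) : ℝ) with hD
  set Q : ℝ := (((N + 1 : ℕ) : ℝ) + 1) ^ (N + 1 + 1) with hQ
  have hQ1 : 1 ≤ Q := one_le_pow₀ (by linarith [Nat.cast_nonneg (α := ℝ) (N + 1)])
  refine ⟨(6 * E) ^ (N + 1 + 1) * 4 ^ DD (N + 1) * Q * ((N + 2) * Q) * (C * CI * E) * T1 ^ (D + ε),
    ?_⟩
  intro p hp T U hU hUT ν ι _ φ μ α hφ hnp hμ hν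
  have hp1 : (1 : ℝ) < p := by exact_mod_cast hp.one_lt
  have hp0 : (0 : ℝ) < p := by linarith
  have hT : 1 ≤ T := hU.trans hUT
  obtain ⟨a1, a2, a3, a4, -⟩ := prm hU hUT hT11 he0 he1
  have hfin := fin_pow D (N + 1) 1 hU hUT hT11 he0 he1 he2
  have a6 : U ≤ max U ((T1 * T) ^ e) := le_max_left _ _
  have a7 : (T1 * T) ^ e ≤ max U ((T1 * T) ^ e) := le_max_right _ _
  generalize max U ((T1 * T) ^ e) = U' at *
  generalize T1 * T = T' at *
  have hT'1 : 1 ≤ T' := hT.trans a2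
  have hU'1 : 1 ≤ U' := hU.trans a6
  obtain ⟨γ, hP, hG, hNr, hw, hne, -⟩ := hred T' U' hT'1 (by linarith) ν ι φ μ α hφ hnp
    (fun j l => (hμ j l).trans a2) fun j l => (hν j l).trans a6
  obtain ⟨hb, hsum⟩ := hcore T' U' ((le_max_left _ _).trans a1) a7 a3 ι α γ hP hG hNr hw hne
  choose σ h hh hform using fun j => form hp1 (α j p) (hP j p hp) (hb j p hp)
  choose S hS hSl using fun j q => hsch (α j q) (σ j)
  have hU2 : max (E / d0) (6 * E) ≤ U' :=
    (le_of_root (by positivity) he0 (le_max_right _ _)).trans a4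
  have hU3 : 6 * E ≤ U' := (le_max_right _ _).trans hU2
  have hδ2 : E / U' ≤ d0 := by
    have := (le_max_left _ _).trans hU2
    rw [div_le_iff₀ hd0] at this
    rw [div_le_iff₀ (by linarith)]; linarith
  set R : ℝ := C * CI * E * (T1 ^ (D + ε) * (U ^ (N + 1) * T ^ (D + ε))) with hR
  have hR0 : 0 ≤ R := by positivity
  have hterm : ∀ x : Fin (N + 1) → ℕ, (∀ i : Fin (N + 1), 6 * (E / U') * (p : ℝ) ^ lam x i.castSucc ≤
      T' ^ (N + 1 - i.val)) → ∑ j, ‖S j p (lam x)‖ ^ 2 ≤ R := by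
    intro x hx
    have h1 := hsum S (fun j q _ => hS j q) _ _ (by positivity)
      (hJ T' _ hT'1 (by positivity) hδ2 (pw p hp x) fun i => by rw [tm_pw]; exact hx i)
    refine le_of_eq_of_le (Finset.sum_congr rfl fun j _ => ?_) (h1.trans
      (le_of_eq_of_le ?_ (mul_le_mul_of_nonneg_left hfin (by positivity))))
    · rw [mulf_pw hp _ _ (by
        have : lam (0 : Fin (N + 1) → ℕ) = 0 := by ext i; simp [lam]
        simp only [this]; exact (hS j p).1)]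
    · rw [one_mul, pow_succ U' (N + 1)]
      field_simp
  have hgoal : (6 * E) ^ (N + 1 + 1) * 4 ^ DD (N + 1) * Q * ((N + 2) * Q) * (C * CI * E) *
      T1 ^ (D + ε) * U ^ (N + 2 - 1) *
      T ^ (((N + 2 : ℕ) : ℝ) * (((N + 2 : ℕ) : ℝ) - 1) / 2 + ε) =
      (6 * E) ^ (N + 1 + 1) * 4 ^ DD (N + 1) * Q * ((N + 2) * (Q * R)) := by
    rw [← cast_D, ← hD, hR, show N + 2 - 1 = N + 1 from rfl]; ring
  rw [hgoal]
  have hq : 1 ≤ U' / (6 * E) := (one_le_div (by linarith)).2 hU3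
  choose L hL1 hL2 using fun i : Fin (N + 1 + 1) => exists_nat_pow_near
    (one_le_mul_of_one_le_of_one_le (one_le_pow₀ (n := N + 1 - i.val) hT'1) hq) hp1
  have hLa : Antitone L := fun i k hik => by
    have h1 : T' ^ (N + 1 - k.val) * (U' / (6 * E)) ≤ T' ^ (N + 1 - i.val) * (U' / (6 * E)) :=
      mul_le_mul_of_nonneg_right (pow_le_pow_right₀ hT'1 (by have := Fin.le_def.1 hik; omega))
        (by linarith)
    have := (pow_lt_pow_iff_right₀ hp1).1 (((hL1 k).trans h1).trans_lt (hL2 i))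
    omega
  have hIQ : ((Sh (N + 1)).card : ℝ) ≤ Q := card_le (N + 1)
  have h1 : ∀ k ∈ Finset.range (N + 2), ∀ t, ∑ j, ‖S j p (sh (cut L k) t)‖ ^ 2 ≤ R := by
    intro k hk t
    obtain ⟨b1, b2, b3⟩ := hsh _ (cut_anti hLa k)
      (cut_last L (Nat.lt_succ_iff.1 (Finset.mem_range.1 hk))) t
    obtain ⟨x, hx⟩ := ex_lam _ b1 b2
    rw [← hx]
    refine hterm x fun i => ?_
    have b4 : lam x i.castSucc ≤ L i.castSucc := by rw [hx]; exact (b3 _).trans (cut_le _ _ _)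
    calc 6 * (E / U') * (p : ℝ) ^ lam x i.castSucc
        ≤ 6 * (E / U') * (p : ℝ) ^ L i.castSucc := by gcongr; exact hp1.le
      _ ≤ 6 * (E / U') * (T' ^ (N + 1 - i.val) * (U' / (6 * E))) := by
        gcongr; exact hL1 i.castSucc
      _ = _ := by field_simp
  have h2 : ∀ j, ∏ i : Fin (N + 2), (U * T ^ (N + 2 - 1 - i.val) / (p : ℝ) ^ (i.val + 1)) ^
      (2 * max (Real.logb p ‖α j p i‖) 0) ≤ (6 * E) ^ (N + 1 + 1) * 4 ^ DD (N + 1) * Q *
        ∑ k ∈ Finset.range (N + 2), ∑ t ∈ Sh (N + 1), ‖S j p (sh (cut L k) t)‖ ^ 2 := by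
    intro j
    have c1 := hform j (fun i => U * T ^ (N + 2 - 1 - i.val) / (p : ℝ) ^ (i.val + 1)) (6 * E) L
      (fun i => by positivity) (fun i k hik => by
        have := Fin.le_def.1 hik
        refine div_le_div₀ (by positivity) ?_ (by positivity)
          (pow_le_pow_right₀ hp1.le (by omega))
        exact mul_le_mul_of_nonneg_left (pow_le_pow_right₀ hT (by omega)) (by linarith))
      (by linarith) fun i => by
        have b1 : U * T ^ (N + 2 - 1 - i.val) ≤ 6 * E * (p : ℝ) ^ (L i + 1) := by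
          calc U * T ^ (N + 2 - 1 - i.val) ≤ U' * T' ^ (N + 1 - i.val) := by
                rw [show N + 2 - 1 = N + 1 from rfl]; gcongr
            _ = 6 * E * (T' ^ (N + 1 - i.val) * (U' / (6 * E))) := by field_simp
            _ ≤ _ := by gcongr; exact (hL2 i).le
        rw [div_mul_eq_mul_div, div_le_iff₀ (by positivity)]
        calc _ ≤ 6 * E * (p : ℝ) ^ (L i + 1) * (p : ℝ) ^ i.val := by gcongr
          _ = _ := by ring
    have c2 := hSl j p _ (cut_anti hLa (h j)) (cut_last L (hh j))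
    have c3 : (∑ t ∈ Sh (N + 1), ‖S j p (sh (cut L (h j)) t)‖) ^ 2 ≤
        Q * ∑ t ∈ Sh (N + 1), ‖S j p (sh (cut L (h j)) t)‖ ^ 2 :=
      sq_sum_le_card_mul_sum_sq.trans (by gcongr)
    have c4 : ∑ t ∈ Sh (N + 1), ‖S j p (sh (cut L (h j)) t)‖ ^ 2 ≤
        ∑ k ∈ Finset.range (N + 2), ∑ t ∈ Sh (N + 1), ‖S j p (sh (cut L k) t)‖ ^ 2 :=
      Finset.single_le_sum (f := fun k => ∑ t ∈ Sh (N + 1), ‖S j p (sh (cut L k) t)‖ ^ 2)
        (fun _ _ => by positivity) (Finset.mem_range.2 (Nat.lt_succ_of_le (hh j)))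
    have c5 : 0 < (∏ k : Fin (N + 1 + 1), (1 + ‖α j p (σ j k)‖) ^ k.val) ^ 2 :=
      pow_pos (Finset.prod_pos fun _ _ => by positivity) 2
    have c6 := pow_le_pow_left₀ (by positivity) c2 2
    rw [mul_pow] at c6
    refine le_of_mul_le_mul_right (c1.trans ?_) c5
    generalize (∏ k : Fin (N + 1 + 1), (1 + ‖α j p (σ j k)‖) ^ k.val) ^ 2 = P at *
    calc _ ≤ (6 * E) ^ (N + 1 + 1) * 4 ^ DD (N + 1) * (P * (Q *
          ∑ k ∈ Finset.range (N + 2), ∑ t ∈ Sh (N + 1), ‖S j p (sh (cut L k) t)‖ ^ 2)) := by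
          refine mul_le_mul_of_nonneg_left (c6.trans (mul_le_mul_of_nonneg_left (c3.trans ?_) c5.le))
            (by positivity)
          gcongr
      _ = _ := by ring
  refine (Finset.sum_le_sum fun j _ => h2 j).trans ?_
  rw [← Finset.mul_sum, Finset.sum_comm]
  refine mul_le_mul_of_nonneg_left ((Finset.sum_le_card_nsmul _ _ (Q * R) fun k hk => ?_).trans
    (le_of_eq (by simp))) (by positivity)
  rw [Finset.sum_comm]
  refine (Finset.sum_le_sum fun t _ => h1 k hk t).trans ?_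
  rw [Finset.sum_const, nsmul_eq_mul]
  gcongr

end SX

end Pool.Agent.Lib.MP_fa98d2_nt.D
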