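import Pool.Agent.Lib.MP_fa98d2_nt.X.Fin

/-! The new density theorem implies the earlier one with the total spread. -/

open Finset

noncomputable section

namespace Pool.Agent.Lib.MP_fa98d2_nt.D

namespace SX

open SW SW.FinA SW.SchW

lemma sph_perm {N : ℕ} {φ : Mat (N + 1) → ℂ} {μ : Fin (N + 1) → ℂ} {α : ℕ → Fin (N + 1) → ℂ}
    (h : SphCusp φ μ α) (σ : Equiv.Perm (Fin (N + 1))) :
    SphCusp φ μ fun q i => α q (σ i) :=
  { h with
    prod_eq := fun p hp => (Equiv.prod_comp σ (α p)).trans (h.prod_eq p hp)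
    hecke := fun p hp r hr g hg => by
      rw [h.hecke p hp r hr g hg]
      congr 2
      exact (esy_perm (α p) σ _).symm }

lemma half {N : ℕ} {φ : Mat (N + 2) → ℂ} {μ : Fin (N + 2) → ℂ} {α : ℕ → Fin (N + 2) → ℂ}
    (h : SphCusp φ μ α) {p : ℕ} (hp : p.Prime) (i : Fin (N + 2)) : ‖α p i‖ ≤ Real.sqrt p := by
  obtain ⟨C0, hred⟩ := red near N
  obtain ⟨E, C, T0, -, -, hT0, hcore⟩ := coreS (N + 1) (by omega) C0 1 one_pos
  have h1 : ∀ l, ‖μ l‖ ≤ max T0 ‖μ‖ := fun l => (norm_le_pi_norm μ l).trans (le_max_right _ _)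
  have h2 : 1 ≤ max T0 ‖μ‖ := hT0.trans (le_max_left _ _)
  obtain ⟨γ, hP, hG, hNr, hw, hne, -⟩ := hred _ (max T0 ‖μ‖) h2 (by linarith) 0 Unit (fun _ => φ)
    (fun _ => μ) (fun _ => α) (fun _ => h) (fun i j hij => absurd (Subsingleton.elim i j) hij)
    (fun _ => h1) fun _ l => by simpa using h1 l
  exact (hcore _ _ (le_max_left _ _) (Real.rpow_one _).le le_rfl Unit _ γ hP hG hNr hw hne).1
    () p hp i

/-- the statement with the total spread follows from the new statement -/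
theorem spread (H : ∀ n : ℕ, 2 ≤ n → ∀ ε : ℝ, 0 < ε →
    ∃ C : ℝ, ∀ p : ℕ, p.Prime → ∀ T U : ℝ, 1 ≤ U → U ≤ T → ∀ (ν : Fin n → ℂ)
      (ι : Type) [Fintype ι] (φ : ι → Mat n → ℂ) (μ : ι → Fin n → ℂ)
        (α : ι → ℕ → Fin n → ℂ), (∀ j, SphCusp (φ j) (μ j) (α j)) →
        (∀ i j, i ≠ j → ¬ ∃ c : ℂ, ∀ g : Mat n, g.det ≠ 0 → φ j g = c * φ i g) →
        (∀ j l, ‖μ j l‖ ≤ T) → (∀ j l, ‖μ j l - ν l‖ ≤ U) →
        ∑ j, ∏ i : Fin n, (U * T ^ (n - 1 - i.val) / (p : ℝ) ^ (i.val + 1)) ^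
            (2 * max (Real.logb p ‖α j p i‖) 0) ≤
          C * U ^ (n - 1) * T ^ ((n : ℝ) * (n - 1) / 2 + ε)) : FinalWStmt := by
  intro n hn ε hε
  obtain ⟨C, hC⟩ := H n hn ε hε
  obtain ⟨N, rfl⟩ : ∃ N, n = N + 2 := ⟨n - 2, by omega⟩
  refine ⟨C, fun p hp T U hU hUT ν ι _ φ μ α hφ hnp hμ hν => ?_⟩
  have hp1 : (1 : ℝ) < p := by exact_mod_cast hp.one_lt
  have hp0 : (0 : ℝ) < p := by linarith
  have hT : 1 ≤ T := hU.trans hUT
  have hσ : ∀ j, ∃ σ : Equiv.Perm (Fin (N + 1 + 1)),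
      Antitone fun i => Real.logb p ‖α j p (σ i)‖ := fun j =>
    ⟨Tuple.sort fun i => -Real.logb p ‖α j p i‖, fun i k h =>
      neg_le_neg_iff.1 (Tuple.monotone_sort (fun i => -Real.logb p ‖α j p i‖) h)⟩
  choose σ hσ using hσ
  have key := hC p hp T U hU hUT ν ι φ μ _ (fun j => sph_perm (hφ j) (σ j)) hnp hμ hν
  have h2 : ∀ j, U ^ (2 * thetaP (α j) p) * T ^ etaP (α j) p ≤ (p : ℝ) ^ (N + 2) ^ 3 *
      ∏ i : Fin (N + 2), (U * T ^ (N + 2 - 1 - i.val) / (p : ℝ) ^ (i.val + 1)) ^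
        (2 * max (Real.logb p ‖α j p (σ j i)‖) 0) := fun j => by
    have h1 := (hφ j).prod_eq p hp
    have hne : ∀ i, 0 < ‖α j p i‖ := fun i => norm_pos_iff.2 fun h => by
      rw [prod_eq_zero (mem_univ i) h] at h1
      exact zero_ne_one h1
    have hr := hσ j
    obtain ⟨s, hs⟩ : ∃ s : Fin (N + 2) → ℝ, s = fun i => Real.logb p ‖α j p i‖ := ⟨_, rfl⟩
    have hs' : ∀ i, Real.logb p ‖α j p i‖ = s i := fun i => by rw [hs]
    have s0 : ∑ i, s i = 0 := by
      simp only [← hs']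
      rw [← Real.logb_prod _ _ fun i _ => (hne i).ne', ← norm_prod, h1, norm_one, Real.logb_one]
    have s1 : ∀ i, s i ≤ 1 / 2 := fun i => by
      rw [← hs', Real.logb_le_iff_le_rpow hp1 (hne i), ← Real.sqrt_eq_rpow]
      exact half (hφ j) hp i
    simp only [hs'] at hr ⊢
    have r0 : ∑ i, s (σ j i) = 0 := (Equiv.sum_comp (σ j) s).trans s0
    obtain ⟨t, ht⟩ : ∃ t : Fin (N + 2) → ℝ, t = fun i => max (s (σ j i)) 0 := ⟨_, rfl⟩
    have ht' : ∀ i, max (s (σ j i)) 0 = t i := fun i => by rw [ht]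
    have t0 : ∀ i, 0 ≤ t i := fun i => ht' i ▸ le_max_right _ _
    have t1 : ∀ i, s (σ j i) ≤ t i := fun i => ht' i ▸ le_max_left _ _
    have t2 : ∀ i, 2 * t i ≤ 1 := fun i => by
      have := max_le (s1 (σ j i)) (by norm_num : (0 : ℝ) ≤ 1 / 2)
      rw [ht'] at this
      linarith
    simp only [ht']
    have a1 : thetaP (α j) p ≤ ∑ i, t i := by
      refine ciSup_le fun i => ?_
      rw [hs', ← (σ j).apply_symm_apply i]
      generalize (σ j).symm i = k
      have b1 := single_le_sum (f := t) (fun i _ => t0 i) (mem_univ k)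
      have b2 := single_le_sum (f := fun i => t i - s (σ j i)) (fun i _ => sub_nonneg.2 (t1 i))
        (mem_univ k)
      rw [sum_sub_distrib, r0] at b2
      exact abs_le.2 ⟨by linarith [t0 k], (t1 k).trans b1⟩
    have a2 : etaP (α j) p ≤ ∑ i : Fin (N + 2), ((N + 2 - 1 - i.val : ℕ) : ℝ) * (2 * t i) := by
      have h3 : ∑ i, ∑ k, |s (σ j i) - s (σ j k)| = ∑ i, ∑ k, |s i - s k| := by
        rw [← Equiv.sum_comp (σ j) fun i => ∑ k, |s i - s k|]
        exact sum_congr rfl fun i _ => Equiv.sum_comp (σ j) fun k => |s (σ j i) - s k|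
      have h4 := abs_sum hr
      rw [etaP]
      simp only [hs']
      rw [← h3, h4, r0, mul_zero, sub_zero, mul_div_cancel_left₀ _ two_ne_zero, mul_sum]
      refine sum_le_sum fun i _ => ?_
      have h5 : ((N + 2 - 1 - i.val : ℕ) : ℝ) = ((N + 1 : ℕ) : ℝ) - i.val := by
        rw [show N + 2 - 1 = N + 1 from rfl, Nat.cast_sub (Nat.lt_succ_iff.1 i.2)]
      have h6 : (0 : ℝ) ≤ ((N + 2 - 1 - i.val : ℕ) : ℝ) := Nat.cast_nonneg _
      rw [← h5]
      nlinarith [t1 i]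
    have a3 : ∀ i : Fin (N + 2), U ^ (2 * t i) * T ^ (((N + 2 - 1 - i.val : ℕ) : ℝ) * (2 * t i)) ≤
        (p : ℝ) ^ (N + 2) *
          (U * T ^ (N + 2 - 1 - i.val) / (p : ℝ) ^ (i.val + 1)) ^ (2 * t i) := fun i => by
      have b0 := t0 i
      rw [Real.div_rpow (by positivity) (by positivity),
        Real.mul_rpow (by positivity) (by positivity), Real.rpow_natCast_mul (by linarith),
        ← mul_div_assoc, le_div_iff₀ (by positivity), mul_comm]
      refine mul_le_mul_of_nonneg_right ?_ (by positivity)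
      refine (Real.rpow_le_rpow_of_exponent_le (one_le_pow₀ hp1.le) (t2 i)).trans ?_
      rw [Real.rpow_one]
      exact pow_le_pow_right₀ hp1.le i.2
    calc _ ≤ U ^ (∑ i, 2 * t i) *
          T ^ (∑ i : Fin (N + 2), ((N + 2 - 1 - i.val : ℕ) : ℝ) * (2 * t i)) := by
          rw [← mul_sum]
          gcongr
      _ = ∏ i : Fin (N + 2), (U ^ (2 * t i) *
          T ^ (((N + 2 - 1 - i.val : ℕ) : ℝ) * (2 * t i))) := by
          rw [Real.rpow_sum_of_pos (by linarith), Real.rpow_sum_of_pos (by linarith),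
            prod_mul_distrib]
      _ ≤ ∏ i : Fin (N + 2), ((p : ℝ) ^ (N + 2) *
          (U * T ^ (N + 2 - 1 - i.val) / (p : ℝ) ^ (i.val + 1)) ^ (2 * t i)) :=
          prod_le_prod (fun _ _ => by positivity) fun i _ => a3 i
      _ ≤ _ := by
          rw [prod_mul_distrib, prod_const, card_univ, Fintype.card_fin, ← pow_mul]
          refine mul_le_mul_of_nonneg_right (pow_le_pow_right₀ hp1.le ?_)
            (prod_nonneg fun _ _ => by positivity)
          nlinarith [Nat.zero_le N, Nat.zero_le (N ^ 2), Nat.zero_le (N ^ 3)]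
  refine (sum_le_sum fun j _ => h2 j).trans ?_
  rw [← mul_sum]
  refine (mul_le_mul_of_nonneg_left key (by positivity)).trans (le_of_eq ?_)
  ring

theorem spread' : FinalWStmt := spread finX

end SX

end Pool.Agent.Lib.MP_fa98d2_nt.D
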