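import Pool.Agent.Lib.MP_fa98d2_nt.W.SchW

/-! Monomials in the Satake parameters are bounded by Schur functions of smaller partitions. -/

open Finset Matrix

noncomputable section

namespace Pool.Agent.Lib.MP_fa98d2_nt.D

namespace SX

open Schur SW.SchW

variable {N : ℕ}

theorem cf_le (a : ℕ → ℂ) : ∀ j t, ‖cf a j t‖ ≤ ∏ k ∈ range j, (1 + ‖a k‖)
  | 0, 0 => by simp [cf]
  | 0, _ + 1 => by simp [cf]
  | j + 1, 0 => by
    have := cf_le a j 0
    have h1 : 0 ≤ ∏ k ∈ range j, (1 + ‖a k‖) := prod_nonneg fun _ _ => by positivity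
    rw [cf, prod_range_succ]
    nlinarith [norm_nonneg (a j)]
  | j + 1, t + 1 => by
    have h1 := cf_le a j (t + 1)
    have h2 := mul_le_mul_of_nonneg_left (cf_le a j t) (norm_nonneg (a j))
    rw [cf, prod_range_succ]
    refine (norm_sub_le _ _).trans ?_
    rw [norm_mul]
    linarith

theorem prod_tri (F : ℕ → ℝ) : ∏ i : Fin (N + 1), ∏ k ∈ range i.rev.val, F k =
    ∏ k : Fin (N + 1), F k.rev ^ k.val := by
  have h1 : ∀ i : Fin (N + 1), ∏ k ∈ range i.rev.val, F k =
      ∏ k : Fin (N + 1), if i < k then F k.rev else 1 := fun i => by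
    rw [← Equiv.prod_comp Fin.revPerm]
    simp only [Fin.revPerm_apply, Fin.rev_rev]
    have e : ∀ k : Fin (N + 1), (if i < k.rev then F k else 1) =
        if k.val < i.rev.val then F k else 1 := fun k =>
      if_congr (by rw [Fin.lt_rev_iff, Fin.lt_def]) rfl rfl
    simp only [e]
    rw [Fin.prod_univ_eq_prod_range (fun k => if k < i.rev.val then F k else 1) (N + 1),
      ← prod_filter]
    congr 1
    ext k
    have := i.rev.2
    simp only [mem_range, mem_filter]
    omega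
  simp only [h1]
  rw [prod_comm]
  refine prod_congr rfl fun k _ => ?_
  rw [← prod_filter, prod_const, filter_gt_eq_Iio, Fin.card_Iio]

theorem expand' (a : ℕ → ℂ) (l : Fin (N + 1) → ℕ) :
    ∏ i : Fin (N + 1), a i.rev ^ l i =
      ∑ t ∈ Fintype.piFinset fun i : Fin (N + 1) => range (i.rev.val + 1),
        (∏ i : Fin (N + 1), cf a i.rev (t i)) *
          (Matrix.of fun i : Fin (N + 1) => row a N (l i + i.rev - t i)).det := by
  have h1 := (detRowAlternating : (Fin (N + 1) → ℂ) [⋀^Fin (N + 1)]→ₗ[ℂ] ℂ).toMultilinearMap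
    |>.map_sum_finset (fun (i : Fin (N + 1)) (t : ℕ) =>
      cf a i.rev t • row a N (l i + i.rev - t)) fun i => range (i.rev.val + 1)
  have h2 : (Matrix.of fun (i : Fin (N + 1)) => ∑ t ∈ range (i.rev.val + 1),
      cf a i.rev t • row a N (l i + i.rev - t)).det = ∏ i : Fin (N + 1), a i.rev ^ l i := by
    have e : ∀ i j : Fin (N + 1), (∑ t ∈ range (i.rev.val + 1),
        cf a i.rev t • row a N (l i + i.rev - t)) j = V a i.rev (l i) j.rev := fun i j => by
      simp only [V, Finset.sum_apply, Pi.smul_apply, smul_eq_mul, Schur.row]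
    rw [det_of_isLowerTriangular]
    · refine prod_congr rfl fun i _ => ?_
      have := (V_eq a i.rev (l i)).2 0
      rw [u_zero] at this
      exact (e i i).trans this
    · intro i j h
      have h' : i < j := h
      exact (e i j).trans ((V_eq a _ _).1 _ (Fin.rev_lt_rev.2 h'))
  refine h2.symm.trans (h1.trans (sum_congr rfl fun t _ => ?_))
  rw [MultilinearMap.map_smul_univ, smul_eq_mul]
  rfl

/-- sorting the rows -/
theorem sort_det {l : Fin (N + 1) → ℕ} (hl : Antitone l) (h0 : l (Fin.last N) = 0)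
    (f : Fin (N + 1) → ℕ) (hf : ∀ i, f i ≤ l i + i.rev) :
    ∃ l' : Fin (N + 1) → ℕ, (∀ j : Fin N, l' j.succ ≤ l' j.castSucc) ∧ l' (Fin.last N) = 0 ∧
      (∀ i, l' i ≤ l i) ∧ ∀ a : ℕ → ℂ, ‖(Matrix.of fun i => row a N (f i)).det‖ ≤ ‖S a l'‖ := by
  by_cases hinj : Function.Injective f
  swap
  · refine ⟨0, fun _ => le_rfl, rfl, fun _ => Nat.zero_le _, fun a => ?_⟩
    obtain ⟨i, j, h1, h2⟩ := Function.not_injective_iff.1 hinj
    rw [det_zero_of_row_eq (M := Matrix.of fun i => row a N (f i)) h2 (by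
      change row a N (f i) = row a N (f j)
      rw [h1]), norm_zero]
    exact norm_nonneg _
  obtain ⟨τ, hτ⟩ : ∃ τ : Equiv.Perm (Fin (N + 1)), StrictAnti fun i => f (τ i) := by
    refine ⟨Tuple.sort fun i => -(f i : ℤ), fun i j h => ?_⟩
    have h1 := Tuple.monotone_sort (fun i => -(f i : ℤ)) h.le
    simp only [Function.comp_apply, neg_le_neg_iff, Nat.cast_le] at h1
    exact lt_of_le_of_ne h1 fun e => h.ne' ((Equiv.injective _) (hinj e))
  have h1 : ∀ i : Fin (N + 1), i.rev.val ≤ f (τ i) := fun i => by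
    induction i using Fin.reverseInduction with
    | last => simp
    | cast i ih =>
      have := hτ (Fin.castSucc_lt_succ (i := i))
      have h3 := i.2
      simp only [Fin.val_rev, Fin.val_succ, Fin.val_castSucc] at ih this ⊢
      omega
  have h2 : ∀ i : Fin (N + 1), f (τ i) ≤ l i + i.rev := fun i => by
    obtain ⟨k, hk, hk'⟩ : ∃ k, k ≤ i ∧ i ≤ τ k := by
      by_contra hc
      push Not at hc
      have := card_le_card_of_injOn (s := Iic i) (t := Iio i) τ
        (fun k hk => by simpa using hc k (by simpa using hk)) τ.injective.injOn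
      simp at this
    have h3 := hτ.antitone hk
    have h4 := hf (τ k)
    have h5 := hl hk'
    have h6 : (τ k).rev.val ≤ i.rev.val := Fin.rev_le_rev.2 hk'
    omega
  refine ⟨fun i => f (τ i) - i.rev, fun j => ?_, ?_, fun i => ?_, fun a => le_of_eq ?_⟩
  · have := hτ (Fin.castSucc_lt_succ (i := j))
    have h3 := j.2
    simp only [Fin.val_rev, Fin.val_succ, Fin.val_castSucc] at this ⊢
    omega
  · have := h2 (Fin.last N)
    simp only [h0, Fin.rev_last, Fin.val_zero] at this ⊢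
    omega
  · have := h2 i
    change f (τ i) - i.rev.val ≤ l i
    omega
  · have e : (Matrix.of fun i : Fin (N + 1) => row a N (f (τ i) - i.rev + i.rev)) =
        (Matrix.of fun i => row a N (f i)).submatrix τ id := by
      ext i j
      simp only [Matrix.of_apply, Matrix.submatrix_apply, id, Nat.sub_add_cancel (h1 i)]
    rw [S, e, det_permute, norm_mul]
    rcases Int.units_eq_one_or (Equiv.Perm.sign τ) with h | h <;> simp [h]

/-- the shifts of a partition -/
def Sh (N : ℕ) : Finset (Fin (N + 1) → ℕ) :=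
  Fintype.piFinset fun i : Fin (N + 1) => range (i.rev.val + 1)

theorem sch2 (N : ℕ) : ∃ sh : (Fin (N + 1) → ℕ) → (Fin (N + 1) → ℕ) → Fin (N + 1) → ℕ,
    (∀ l, Antitone l → l (Fin.last N) = 0 → ∀ t, (∀ j : Fin N, sh l t j.succ ≤ sh l t j.castSucc) ∧
      sh l t (Fin.last N) = 0 ∧ ∀ i, sh l t i ≤ l i) ∧
    ∀ (α : Fin (N + 1) → ℂ) (σ : Equiv.Perm (Fin (N + 1))), ∃ S, IsSch α S ∧
      ∀ l, Antitone l → l (Fin.last N) = 0 → ∏ i, ‖α (σ i)‖ ^ l i ≤
        (∏ k : Fin (N + 1), (1 + ‖α (σ k)‖) ^ k.val) * ∑ t ∈ Sh N, ‖S (sh l t)‖ := by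
  have h : ∀ l t : Fin (N + 1) → ℕ, ∃ l' : Fin (N + 1) → ℕ, Antitone l → l (Fin.last N) = 0 →
      (∀ j : Fin N, l' j.succ ≤ l' j.castSucc) ∧ l' (Fin.last N) = 0 ∧ (∀ i, l' i ≤ l i) ∧
      ∀ a : ℕ → ℂ, ‖(Matrix.of fun i : Fin (N + 1) => row a N (l i + i.rev - t i)).det‖ ≤
        ‖S a l'‖ := fun l t => by
    by_cases h : Antitone l ∧ l (Fin.last N) = 0
    · obtain ⟨l', h'⟩ := sort_det h.1 h.2 (fun i => l i + i.rev - t i) fun i => Nat.sub_le _ _
      exact ⟨l', fun _ _ => h'⟩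
    · exact ⟨0, fun h1 h2 => absurd ⟨h1, h2⟩ h⟩
  choose sh hsh using h
  refine ⟨sh, fun l h1 h2 t => ⟨(hsh l t h1 h2).1, (hsh l t h1 h2).2.1, (hsh l t h1 h2).2.2.1⟩,
    fun α σ => ?_⟩
  let a : ℕ → ℂ := fun m => if h : m < N + 1 then α (σ (Fin.rev ⟨m, h⟩)) else 0
  have ha : ∀ j : Fin (N + 1), a j.rev = α (σ j) := fun j => by
    simp only [a, dif_pos j.rev.2, Fin.eta, Fin.rev_rev]
  have hb : ∀ B : ℝ, 0 ≤ B → (∀ i, ‖α i‖ ≤ B) → ∀ m, ‖a m‖ ≤ B := fun B hB hα m => by
    simp only [a]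
    split_ifs
    · exact hα _
    · simpa using hB
  refine ⟨Schur.S a, isSch a σ ha hb, fun l h1 h2 => ?_⟩
  have h := congrArg norm (expand' a l)
  simp only [norm_prod, norm_pow, ha] at h
  rw [h, mul_sum]
  refine (norm_sum_le _ _).trans (sum_le_sum fun t _ => ?_)
  have e := prod_tri (N := N) fun k => 1 + ‖a k‖
  simp only [ha] at e
  rw [norm_mul, norm_prod, ← e]
  exact mul_le_mul (prod_le_prod (fun _ _ => norm_nonneg _) fun i _ => cf_le a _ _)
    ((hsh l t h1 h2).2.2.2 a) (norm_nonneg _)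
    (prod_nonneg fun _ _ => prod_nonneg fun _ _ => by positivity)

end SX

end Pool.Agent.Lib.MP_fa98d2_nt.D
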